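import Pool.Agent.Lib.H11L.FIN2

/-!
# Random lists for Latin hypercubes of even order

For every dimension `d` the threshold for the random lists to admit a Latin hypercube of even order `n`
is at most `n ^ (- 1 / 2 ^ (d + 5))`.
-/

open Filter Topology

namespace Pool.Agent.Results.MP_d7ae47_co.EvenOrder

/-- Let `d ≥ 1` and `n ^ (- 1 / 2 ^ (d + 5)) ≤ p n ≤ 1` for all large `n`. The probability that the random
lists of parameter `p n` on the positions of `[n] ^ d` admit a `d`-dimensional Latin hypercube of order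
`n` tends to `1` as `n = 2 m → ∞`. -/
theorem result (d : ℕ) (hd : 1 ≤ d) (p : ℕ → ℝ) (hp1 : ∀ n, p n ≤ 1)
    (hp : ∀ᶠ n : ℕ in atTop, (n : ℝ) ^ (-(1 / (2 : ℝ) ^ (d + 5))) ≤ p n) :
    Tendsto (fun m : ℕ => H11L.prob d (2 * m) (p (2 * m))) atTop (𝓝 1) :=
  H11L.main d hd p hp1 hp

end Pool.Agent.Results.MP_d7ae47_co.EvenOrder
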